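import Pool.Agent.H44.DG.One
import Pool.Agent.H44.DG.Asm
import Pool.Agent.H69.DG.TF
import Pool.Agent.H69.DG.TD
import Pool.Agent.H85.DG.TA
import Pool.Agent.H85.DG.TC
import Pool.Agent.H74.DG.TB
import Pool.Agent.H74.DG.TE
import Pool.Agent.H44.DG.Sound

/-!
# MP_3c6455_co: the threshold bias of the Hamiltonian cycle drawing game

Complete answer of Q1: in the `1 : 1` game Builder wins for every `n ≥ 3`, in the `1 : 2` game Spoiler wins for
all sufficiently large `n`, whoever moves first.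

The model of the game is in `Pool/Agent/H44/DG/Model.lean`; `model_sound` below shows that every play of the model
on `n ≥ 3` points ends with exactly `3 n - 6` edges, all regions being triangles.

Modules: helper44 (strategy, model, labelled pictures, case table, STEP, assembly), helper42 (independent search,
review), helper3 (ADJ, LMR, LMP), helper33 (DEC, INV, SF, SG), helper48 (FIN, SD), helper58 (REP, GAM),
helper59 (EXT, SC), helper65 (CAS, FLO, OPC, SB), helper29 (LOC, NOD), helper81 (OPA), helper2 (OPB),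
helper85 (SND, PTH, TA, TC, SE), helper69 (TF, TD), helper74 (TB, TE).
-/

set_option autoImplicit false

namespace Pool.Agent.Results.MP_3c6455_co.ThresholdBias

open Pool.Agent.H44.DG

/-- Soundness of the model: every play on `n ≥ 3` points ends with a triangulation with `3 n - 6` edges. -/
theorem model_sound (n : ℕ) (hn : 3 ≤ n) (D : Drawing (Fin n)) (hD : Relation.ReflTransGen Draw (start n) D)
    (hF : ∀ D', ¬ Draw D D') :
    D.edges.ncard = 3 * n - 6 ∧
      ∀ Φ ∈ D.regions, ∃ a b c : Fin n, a ≠ b ∧ b ≠ c ∧ c ≠ a ∧ Φ = {(↑[a, b, c] : Cycle (Fin n))} :=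
  pf_SG n D hn hD hF

theorem result :
    (∀ n : ℕ, 3 ≤ n → ∀ t : Player, BuilderWins 1 1 n t) ∧
      ∃ N : ℕ, ∀ n : ℕ, N ≤ n → ∀ t : Player, SpoilerWins 1 2 n t :=
  ⟨pf_ONE, two_of (Pool.Agent.H69.DG.TF.pf_TF Pool.Agent.H85.DG.TA.pf_TA Pool.Agent.H74.DG.TB.pf_TB)
    (Pool.Agent.H85.DG.TC.pf_TC Pool.Agent.H74.DG.TB.pf_TB)
    (Pool.Agent.H69.DG.TD.pf_TD Pool.Agent.H85.DG.TA.pf_TA Pool.Agent.H74.DG.TB.pf_TB)
    Pool.Agent.H74.DG.TE.pf_TE⟩

end Pool.Agent.Results.MP_3c6455_co.ThresholdBias
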